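import Pool.Graph.R_pool_sql_team_seeded_64922ed1.Results.MP_07c133_an.NotNuclear

set_option autoImplicit false

namespace Pool.Agent.KS6_17.KOT

open Filter Topology Pool.Agent.Results.MP_07c133_an.NotNuclear
open scoped NNReal

section

variable {I : Type} {p : ℕ → I → ℝ≥0}

/-- finitely many weights of a Köthe set are dominated by one of them -/
theorem dom (hP : KoetheSet p) (s : Finset ℕ) : ∃ m, ∀ k ∈ s, ∀ i, p k i ≤ p m i := by
  classical
  induction s using Finset.induction_on with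
  | empty => exact ⟨0, by simp⟩
  | insert a s ha ih =>
    obtain ⟨m, hm⟩ := ih
    obtain ⟨n, hn⟩ := hP.dir a m
    refine ⟨n, fun k hk i => ?_⟩
    rcases Finset.mem_insert.1 hk with rfl | hk
    · exact (le_max_left _ _).trans (hn i)
    · exact (hm k hk i).trans ((le_max_right _ _).trans (hn i))

theorem sn_le_of_le {k m : ℕ} (h : ∀ i, p k i ≤ p m i) : sn p k ≤ sn p m := fun x =>
  Summable.tsum_le_tsum (fun i => mul_le_mul_of_nonneg_left (by exact_mod_cast h i)
    (norm_nonneg _)) (x.2 k) (x.2 m)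

/-- balls: every neighbourhood of zero contains a ball of one of the seminorms -/
theorem ball_basis (hP : KoetheSet p) {U : Set (KSpace p)} (hU : U ∈ 𝓝 (0 : KSpace p)) :
    ∃ (m : ℕ) (r : ℝ), 0 < r ∧ ∀ x : KSpace p, sn p m x < r → x ∈ U := by
  obtain ⟨⟨s, r⟩, hr, hs⟩ := (withS p).hasBasis_zero_ball.mem_iff.1 hU
  obtain ⟨m, hm⟩ := dom hP s
  refine ⟨m, r, hr, fun x hx => hs ?_⟩
  rw [Seminorm.mem_ball, sub_zero]
  have h1 : s.sup (sn p) ≤ sn p m := Finset.sup_le fun k hk => sn_le_of_le (hm k hk)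
  exact (h1 x).trans_lt hx

/-- A bilinear map which is continuous at zero is small if the products of the seminorms are
small. -/
theorem small (hP : KoetheSet p) {X : Type*} [AddCommGroup X] [Module ℂ X] [TopologicalSpace X]
    (b : KSpace p →ₗ[ℂ] KSpace p →ₗ[ℂ] X)
    (hb : Tendsto (fun z : KSpace p × KSpace p => b z.1 z.2) (𝓝 (0, 0)) (𝓝 0)) {J : Type}
    (l : Filter J) (u v : J → KSpace p)
    (H : ∀ k, Tendsto (fun j => (1 + sn p k (u j)) * sn p k (v j)) l (𝓝 0)) :
    Tendsto (fun j => b (u j) (v j)) l (𝓝 0) := by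
  intro V hV
  have h1 := hb hV
  rw [Filter.mem_map, nhds_prod_eq] at h1
  obtain ⟨U1, hU1, U2, hU2, h2⟩ := Filter.mem_prod_iff.1 h1
  obtain ⟨m1, r1, hr1, hm1⟩ := ball_basis hP hU1
  obtain ⟨m2, r2, hr2, hm2⟩ := ball_basis hP hU2
  obtain ⟨m, hm⟩ := dom hP {m1, m2}
  have hm1' := sn_le_of_le (hm m1 (by simp))
  have hm2' := sn_le_of_le (hm m2 (by simp))
  set r := min r1 r2 with hr
  have hr0 : 0 < r := lt_min hr1 hr2
  rw [Filter.mem_map]
  filter_upwards [(H m).eventually_lt_const (show (0 : ℝ) < r ^ 2 / 2 by positivity)] with j hj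
  have hu : 0 ≤ sn p m (u j) := apply_nonneg _ _
  have hv : 0 ≤ sn p m (v j) := apply_nonneg _ _
  set t : ℝ := 2 * (1 + sn p m (u j)) / r with ht
  have ht0 : 0 < t := by positivity
  have htc : (t : ℂ) ≠ 0 := by exact_mod_cast ht0.ne'
  have e : b (u j) (v j) = b ((t : ℂ)⁻¹ • u j) ((t : ℂ) • v j) := by
    rw [map_smul, map_smul, LinearMap.smul_apply, smul_smul, mul_inv_cancel₀ htc, one_smul]
  have h3 : sn p m ((t : ℂ)⁻¹ • u j) < r := by
    rw [map_smul_eq_mul, norm_inv, Complex.norm_real, Real.norm_eq_abs, abs_of_pos ht0,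
      inv_mul_lt_iff₀ ht0, ht]
    have : 2 * (1 + sn p m (u j)) / r * r = 2 * (1 + sn p m (u j)) := by field_simp
    rw [this]; linarith
  have h4 : sn p m ((t : ℂ) • v j) < r := by
    rw [map_smul_eq_mul, Complex.norm_real, Real.norm_eq_abs, abs_of_pos ht0, ht]
    rw [div_mul_eq_mul_div, div_lt_iff₀ hr0]
    nlinarith
  have h5 : ((t : ℂ)⁻¹ • u j, (t : ℂ) • v j) ∈ U1 ×ˢ U2 :=
    ⟨hm1 _ ((hm1' _).trans_lt (h3.trans_le (min_le_left _ _))),
      hm2 _ ((hm2' _).trans_lt (h4.trans_le (min_le_right _ _)))⟩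
  have h6 := h2 h5
  rw [Set.mem_preimage] at h6
  rw [Set.mem_preimage, e]
  exact h6

theorem conv {J : Type} (l : Filter J) (v : J → KSpace p)
    (H : ∀ k, Tendsto (fun j => sn p k (v j)) l (𝓝 0)) : Tendsto v l (𝓝 0) := by
  rw [(withS p).tendsto_nhds]
  intro k ε hε
  filter_upwards [(H k).eventually_lt_const hε] with j hj
  rwa [sub_zero]

/-- The inner derivations given by the finite sets `T j` converge to `D`. -/
theorem core [DecidableEq I] (hP : KoetheSet p) (h : Closed p) {X : Type*} [AddCommGroup X]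
    [Module ℂ X] [TopologicalSpace X] [IsTopologicalAddGroup X] (B : Bimod h X)
    (D : KSpace p →L[ℂ] X) (hD : IsDerivation B D) {J : Type} (l : Filter J) (T : J → Finset I)
    (a : KSpace p)
    (H : ∀ k, Tendsto (fun j => (1 + sn p k (ind p (T j))) * sn p k (tail h (T j) a)) l (𝓝 0)) :
    Tendsto (fun j => B.L a (elt B D (T j)) - B.R a (elt B D (T j))) l (𝓝 (D a)) := by
  have H1 : ∀ k, Tendsto (fun j => sn p k (tail h (T j) a)) l (𝓝 0) := by
    intro k
    refine squeeze_zero (fun j => apply_nonneg _ _) (fun j => ?_) (H k)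
    have h1 : 0 ≤ sn p k (ind p (T j)) := apply_nonneg _ _
    have h2 : 0 ≤ sn p k (tail h (T j) a) := apply_nonneg _ _
    nlinarith
  have h1 : Tendsto (fun j => D (tail h (T j) a)) l (𝓝 0) := by
    have := (D.continuous.tendsto 0).comp (conv l _ H1)
    rwa [map_zero] at this
  have hz : Tendsto (fun z : KSpace p × KSpace p => ((z.1, D z.2) : KSpace p × X))
      (𝓝 (0, 0)) (𝓝 (0, 0)) := by
    have : Continuous fun z : KSpace p × KSpace p => ((z.1, D z.2) : KSpace p × X) := by fun_prop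
    have := this.tendsto (0, 0)
    simpa using this
  have h2 : Tendsto (fun j => B.R (ind p (T j)) (D (tail h (T j) a))) l (𝓝 0) := by
    refine small hP (B.R.compl₂ D.toLinearMap) ?_ l _ _ H
    have := (B.contR.tendsto (0, 0)).comp hz
    simpa [Function.comp_def] using this
  have h3 : Tendsto (fun j => B.L (ind p (T j)) (D (tail h (T j) a))) l (𝓝 0) := by
    refine small hP (B.L.compl₂ D.toLinearMap) ?_ l _ _ H
    have := (B.contL.tendsto (0, 0)).comp hz
    simpa [Function.comp_def] using this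
  have h4 := ((tendsto_const_nhds (x := D a)).sub h1).add h2 |>.add h3
  rw [sub_zero, add_zero, add_zero] at h4
  refine h4.congr fun j => ?_
  rw [inner_eq B D hD]

theorem sn_ind_eq [DecidableEq I] (k : ℕ) (T : Finset I) :
    sn p k (ind p T) = ∑ i ∈ T, (p k i : ℝ) := by
  change ∑' i, ‖(ind p T).1 i‖ * (p k i : ℝ) = _
  rw [tsum_eq_sum (s := T)]
  · refine Finset.sum_congr rfl fun i hi => ?_
    simp [ind, hi]
  · intro i hi
    simp [ind, hi]

theorem sn_tail_eq [DecidableEq I] (h : Closed p) (k : ℕ) (T : Finset I) (a : KSpace p) :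
    sn p k (tail h T a) = ∑' i, if i ∈ T then 0 else ‖a.1 i‖ * (p k i : ℝ) := by
  change ∑' i, ‖(tail h T a).1 i‖ * (p k i : ℝ) = _
  refine tsum_congr fun i => ?_
  rw [tail_val]
  split_ifs <;> simp

/-- **A criterion.** -/
theorem crit.{u} [DecidableEq I] (hP : KoetheSet p) (h : Closed p)
    (H : ∀ (k : ℕ) (F : Finset (KSpace p)) (ε : ℝ), 0 < ε → ∃ T : Finset I, ∀ a ∈ F,
      (1 + ∑ i ∈ T, (p k i : ℝ)) * (∑' i, if i ∈ T then 0 else ‖a.1 i‖ * (p k i : ℝ)) < ε) :
    ApproximatelyContractible.{u} h := by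
  classical
  intro X _ _ _ _ _ _ q hq B D hD
  choose m hm using dom hP
  choose T hT using fun (j : Finset ℕ × Finset (KSpace p) × ℕ) =>
    H (m j.1) j.2.1 (1 / ((j.2.2 : ℝ) + 1)) (by positivity)
  refine ⟨Finset ℕ × Finset (KSpace p) × ℕ, inferInstance, inferInstance, inferInstance,
    fun j => elt B D (T j), fun a => core hP h B D hD _ T a fun k => ?_⟩
  rw [Metric.tendsto_nhds]
  intro ε hε
  obtain ⟨n, hn⟩ := exists_nat_one_div_lt hε
  filter_upwards [Filter.eventually_ge_atTop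
    (({k}, {a}, n) : Finset ℕ × Finset (KSpace p) × ℕ)] with j hj
  have hk : k ∈ j.1 := hj.1 (Finset.mem_singleton_self _)
  have ha : a ∈ j.2.1 := hj.2.1 (Finset.mem_singleton_self _)
  have hn' : n ≤ j.2.2 := hj.2.2
  have h1 := hT j a ha
  rw [← sn_ind_eq, ← sn_tail_eq h] at h1
  have h2 := sn_le_of_le (hm j.1 k hk) (ind p (T j))
  have h3 := sn_le_of_le (hm j.1 k hk) (tail h (T j) a)
  have h4 : 0 ≤ sn p k (ind p (T j)) := apply_nonneg _ _
  have h5 : 0 ≤ sn p k (tail h (T j) a) := apply_nonneg _ _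
  have h6 : (1 : ℝ) / ((j.2.2 : ℝ) + 1) ≤ 1 / ((n : ℝ) + 1) := by
    have : (n : ℝ) ≤ j.2.2 := by exact_mod_cast hn'
    gcongr
  rw [Real.dist_eq, sub_zero, abs_of_nonneg (by positivity)]
  calc (1 + sn p k (ind p (T j))) * sn p k (tail h (T j) a) ≤
      (1 + sn p (m j.1) (ind p (T j))) * sn p (m j.1) (tail h (T j) a) := by gcongr
    _ < 1 / ((j.2.2 : ℝ) + 1) := h1
    _ ≤ _ := h6
    _ < ε := hn

end

end Pool.Agent.KS6_17.KOT
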