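import Pool.Agent.KS6_17.KOT.Crit

set_option autoImplicit false

namespace Pool.Agent.KS6_17.KOT

open Filter Topology Pool.Agent.Results.MP_07c133_an.NotNuclear
open scoped NNReal

/-- the weight and the size of the blocks -/
def st (g : ℕ → ℕ → ℕ) : ℕ → ℕ × ℕ
  | 0 => (1, 1)
  | j + 1 =>
    let w := (st g j).1 + (j + 2) ^ 2 * (st g j).2 * (st g j).1 ^ j
    (w, (st g j).2 + g (j + 1) w)

/-- the weights -/
def W (g : ℕ → ℕ → ℕ) (j : ℕ) : ℕ := (st g j).1

/-- the sizes of the blocks -/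
def N (g : ℕ → ℕ → ℕ) (j : ℕ) : ℕ := (st g j).2

variable (g : ℕ → ℕ → ℕ)

theorem W_succ (j : ℕ) : W g (j + 1) = W g j + (j + 2) ^ 2 * N g j * W g j ^ j := rfl

theorem N_succ (j : ℕ) : N g (j + 1) = N g j + g (j + 1) (W g (j + 1)) := rfl

theorem N_mono : Monotone (N g) := monotone_nat_of_le_succ fun j => by rw [N_succ]; omega

theorem N_pos (j : ℕ) : 1 ≤ N g j := by
  have : N g 0 = 1 := rfl
  rw [← this]
  exact N_mono g (Nat.zero_le _)

theorem W_mono : Monotone (W g) := monotone_nat_of_le_succ fun j => by rw [W_succ]; omega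

theorem W_pos (j : ℕ) : 1 ≤ W g j := by
  have : W g 0 = 1 := rfl
  rw [← this]
  exact W_mono g (Nat.zero_le _)

theorem W_ge (j : ℕ) : j + 1 ≤ W g j := by
  induction j with
  | zero => exact W_pos g 0
  | succ j ih =>
    rw [W_succ]
    have h1 : 1 ≤ (j + 2) ^ 2 * N g j * W g j ^ j :=
      Nat.one_le_iff_ne_zero.2 (mul_ne_zero (mul_ne_zero (by positivity)
        (Nat.one_le_iff_ne_zero.1 (N_pos g j))) (pow_ne_zero _
        (Nat.one_le_iff_ne_zero.1 (W_pos g j))))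
    omega

/-- the index set -/
abbrev Ix : Type := Σ j : ℕ, Fin (N g j)

/-- the Köthe set: powers of the weight -/
noncomputable def pw (k : ℕ) (i : Ix g) : ℝ≥0 := (W g i.1 : ℝ≥0) ^ k

theorem pw_real (k : ℕ) (i : Ix g) : ((pw g k i : ℝ≥0) : ℝ) = (W g i.1 : ℝ) ^ k := by
  unfold pw; push_cast; rfl

theorem one_le_W (j : ℕ) : (1 : ℝ) ≤ W g j := by exact_mod_cast W_pos g j

theorem pw_pos (k : ℕ) (i : Ix g) : (0 : ℝ) < pw g k i := by
  rw [pw_real]
  have := one_le_W g i.1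
  positivity

theorem pw_mono {k l : ℕ} (h : k ≤ l) (i : Ix g) : pw g k i ≤ pw g l i :=
  pow_le_pow_right₀ (by exact_mod_cast W_pos g i.1) h

theorem koethe : KoetheSet (pw g) where
  pos i := ⟨0, by simp [pw]⟩
  dir k l := ⟨max k l, fun i =>
    max_le (pw_mono g (le_max_left _ _) i) (pw_mono g (le_max_right _ _) i)⟩

theorem closed : Closed (pw g) := by
  intro a b k
  have hb : Summable fun i => ‖b.1 i‖ := by
    have := b.2 0
    simpa [pw] using this
  refine Summable.of_nonneg_of_le (fun i => by positivity) (fun i => ?_)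
    ((a.2 k).mul_left (∑' i, ‖b.1 i‖))
  rw [norm_mul]
  have h1 : ‖b.1 i‖ ≤ ∑' i, ‖b.1 i‖ := hb.le_tsum i fun j _ => norm_nonneg _
  have h2 : 0 ≤ ‖a.1 i‖ * (pw g k i : ℝ) := by positivity
  nlinarith

/-- the first blocks -/
def T (j : ℕ) : Finset (Ix g) := (Finset.range (j + 1)).sigma fun _ => Finset.univ

theorem mem_T (j : ℕ) (i : Ix g) : i ∈ T g j ↔ i.1 ≤ j := by
  simp [T]

theorem sum_T {j k : ℕ} (h : k ≤ j) :
    ∑ i ∈ T g j, ((pw g k i : ℝ≥0) : ℝ) ≤ (j + 1) * (N g j * (W g j : ℝ) ^ j) := by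
  unfold T
  rw [Finset.sum_sigma]
  have : ∀ l ∈ Finset.range (j + 1), ∑ x : Fin (N g l), ((pw g k ⟨l, x⟩ : ℝ≥0) : ℝ) ≤
      N g j * (W g j : ℝ) ^ j := by
    intro l hl
    have hl' : l ≤ j := Nat.lt_succ_iff.1 (Finset.mem_range.1 hl)
    simp only [pw_real, Finset.sum_const, Finset.card_univ, Fintype.card_fin, nsmul_eq_mul]
    have h1 : (N g l : ℝ) ≤ N g j := by exact_mod_cast N_mono g hl'
    have h2 : (W g l : ℝ) ≤ W g j := by exact_mod_cast W_mono g hl'
    have h3 : (W g l : ℝ) ^ k ≤ (W g j : ℝ) ^ j :=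
      (pow_le_pow_left₀ (by positivity) h2 k).trans (pow_le_pow_right₀ (one_le_W g j) h)
    exact mul_le_mul h1 h3 (by positivity) (by positivity)
  refine (Finset.sum_le_sum this).trans ?_
  rw [Finset.sum_const, Finset.card_range, nsmul_eq_mul]
  push_cast
  exact le_rfl

theorem tail_le (j k : ℕ) (a : KSpace (pw g)) :
    (W g (j + 1) : ℝ) * sn (pw g) k (tail (closed g) (T g j) a) ≤ sn (pw g) (k + 1) a := by
  change (W g (j + 1) : ℝ) * (∑' i, ‖(tail (closed g) (T g j) a).1 i‖ * (pw g k i : ℝ)) ≤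
    ∑' i, ‖a.1 i‖ * (pw g (k + 1) i : ℝ)
  rw [← tsum_mul_left]
  refine Summable.tsum_le_tsum (fun i => ?_) (((tail (closed g) (T g j) a).2 k).mul_left _)
    (a.2 (k + 1))
  rw [tail_val]
  split_ifs with h
  · simp only [norm_zero, zero_mul, mul_zero]; positivity
  · rw [mem_T, not_le] at h
    have e : ((pw g (k + 1) i : ℝ≥0) : ℝ) = pw g k i * W g i.1 := by
      rw [pw_real, pw_real, pow_succ]
    have e2 : (W g (j + 1) : ℝ) ≤ W g i.1 := by exact_mod_cast W_mono g h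
    rw [e]
    have : 0 ≤ ‖a.1 i‖ * (pw g k i : ℝ) := by positivity
    nlinarith

theorem approx.{u} : ApproximatelyContractible.{u} (closed g) := by
  refine crit (koethe g) (closed g) fun k F ε hε => ?_
  -- a common bound for the seminorms
  obtain ⟨M, hM0, hM⟩ : ∃ M : ℝ, 0 < M ∧ ∀ a ∈ F, sn (pw g) (k + 1) a ≤ M := by
    refine ⟨1 + ∑ a ∈ F, sn (pw g) (k + 1) a, ?_, fun a ha => ?_⟩
    · have : 0 ≤ ∑ a ∈ F, sn (pw g) (k + 1) a := Finset.sum_nonneg fun a _ => apply_nonneg _ _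
      linarith
    · have := Finset.single_le_sum (f := fun a => sn (pw g) (k + 1) a)
        (fun a _ => apply_nonneg _ _) ha
      linarith
  obtain ⟨n, hn⟩ := exists_nat_gt (M / ε)
  set j := max k n with hj
  have hkj : k ≤ j := le_max_left _ _
  have hnj : (n : ℝ) ≤ j := by exact_mod_cast le_max_right k n
  refine ⟨T g j, fun a ha => ?_⟩
  rw [← sn_tail_eq (closed g)]
  have h1 := sum_T g hkj
  have h2 := tail_le g j k a
  have h3 := hM a ha
  set t := sn (pw g) k (tail (closed g) (T g j) a)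
  have ht : 0 ≤ t := apply_nonneg _ _
  set Q : ℝ := N g j * (W g j : ℝ) ^ j with hQ
  have hQ1 : 1 ≤ Q := by
    have a1 : (1 : ℝ) ≤ N g j := by exact_mod_cast N_pos g j
    have a2 : (1 : ℝ) ≤ (W g j : ℝ) ^ j := one_le_pow₀ (one_le_W g j)
    nlinarith
  have h4 : (W g (j + 1) : ℝ) = W g j + (j + 2) ^ 2 * Q := by
    rw [W_succ, hQ]; push_cast; ring
  have h5 : 0 ≤ (W g j : ℝ) := by positivity
  have h6 : ((j : ℝ) + 2) ^ 2 * Q * t ≤ M := by
    rw [h4] at h2
    nlinarith [mul_nonneg h5 ht]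
  have h7 : (1 + ∑ i ∈ T g j, ((pw g k i : ℝ≥0) : ℝ)) * t ≤ (j + 2) * Q * t := by
    refine mul_le_mul_of_nonneg_right ?_ ht
    nlinarith
  have h8 : M < ε * (j + 2) := by
    rw [div_lt_iff₀ hε] at hn
    nlinarith
  have h9 : (j + 2) * ((j + 2) * Q * t) < (j + 2) * ε := by nlinarith
  have h10 : (0 : ℝ) < j + 2 := by positivity
  exact h7.trans_lt (lt_of_mul_lt_mul_left h9 h10.le)

theorem schwartz (k : ℕ) : Tendsto (fun i : Ix g => (pw g k i : ℝ) / pw g (k + 1) i) cofinite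
    (𝓝 0) := by
  rw [Metric.tendsto_nhds]
  intro ε hε
  obtain ⟨n, hn⟩ := exists_nat_gt (1 / ε)
  rw [Filter.eventually_cofinite]
  refine (T g n).finite_toSet.subset fun i hi => ?_
  rw [Finset.mem_coe, mem_T]
  by_contra hlt
  rw [not_le] at hlt
  apply hi
  have h1 : (pw g k i : ℝ) / pw g (k + 1) i = ((W g i.1 : ℝ))⁻¹ := by
    have := one_le_W g i.1
    rw [pw_real, pw_real, pow_succ]
    field_simp
  have h2 : (n : ℝ) < W g i.1 := by
    have h3 := W_ge g i.1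
    exact_mod_cast (show n < W g i.1 by omega)
  rw [h1, Real.dist_eq, sub_zero, abs_of_nonneg (by positivity)]
  have h4 : 1 / ε < W g i.1 := hn.trans h2
  have h5 : (0 : ℝ) < W g i.1 := lt_of_le_of_lt (by positivity) h2
  rw [div_lt_iff₀ hε] at h4
  rw [inv_lt_comm₀ h5 hε]
  rw [inv_eq_one_div, div_lt_iff₀ hε]
  exact h4

/-- large blocks -/
theorem not_summable (φ : ℝ → ℝ) (hφ : ∀ t, 0 < t → 0 < φ t)
    (hg : ∀ j w k : ℕ, k ≤ j → 1 / φ (((w : ℝ) ^ k)⁻¹) ≤ g j w) (k : ℕ) :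
    ¬ Summable fun i : Ix g => φ (((W g i.1 : ℝ) ^ k)⁻¹) := by
  intro h
  have hp : ∀ j, 0 < φ (((W g j : ℝ) ^ k)⁻¹) := fun j => hφ _ (by
    have := one_le_W g j
    positivity)
  have h1 : ∀ j, k ≤ j → 1 ≤ j → 1 ≤ ∑ i ∈ ({j} : Finset ℕ).sigma
      (fun j => (Finset.univ : Finset (Fin (N g j)))), φ (((W g i.1 : ℝ) ^ k)⁻¹) := by
    intro j hj h1
    rw [Finset.sum_sigma, Finset.sum_singleton]
    simp only [Finset.sum_const, Finset.card_univ, Fintype.card_fin, nsmul_eq_mul]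
    obtain ⟨l, rfl⟩ : ∃ l, j = l + 1 := ⟨j - 1, by omega⟩
    have h2 := hg (l + 1) (W g (l + 1)) k hj
    have h3 : (g (l + 1) (W g (l + 1)) : ℝ) ≤ N g (l + 1) := by
      rw [N_succ]; push_cast; linarith [(N g l).cast_nonneg (α := ℝ)]
    have h4 := hp (l + 1)
    rw [div_le_iff₀ h4] at h2
    nlinarith
  -- the tails of a summable family are small
  have h2 := h.tendsto_cofinite_zero
  obtain ⟨s, hs⟩ := (summable_iff_vanishing_norm.1 h) 1 one_pos
  obtain ⟨n, hn⟩ : ∃ n : ℕ, ∀ i ∈ s, i.1 ≤ n :=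
    ⟨s.sup fun i => i.1, fun i hi => Finset.le_sup (f := fun i : Ix g => i.1) hi⟩
  have h3 := hs (({max k n + 1} : Finset ℕ).sigma
      (fun j => (Finset.univ : Finset (Fin (N g j))))) (by
    rw [Finset.disjoint_left]
    intro i hi hi'
    have h5 := hn i hi'
    rw [Finset.mem_sigma, Finset.mem_singleton] at hi
    have := le_max_right k n
    omega)
  have h4 := h1 (max k n + 1) (by have := le_max_left k n; omega) (by omega)
  rw [Real.norm_eq_abs, abs_of_nonneg (Finset.sum_nonneg fun i _ => (hp i.1).le)] at h3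
  linarith

end Pool.Agent.KS6_17.KOT
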