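import Pool.Agent.KS6_17.KOT.Ex

set_option autoImplicit false

namespace Pool.Agent.KS6_17.KOT

open Filter Topology Pool.Agent.Results.MP_07c133_an.NotNuclear
open scoped NNReal

section

variable {I : Type} {p : ℕ → I → ℝ≥0}

/-- the inclusion of the Köthe space into `ℓ¹`, as a linear map -/
noncomputable def inclL (h0 : ∀ i, p 0 i = 1) : KSpace p →ₗ[ℂ] lp (fun _ : I => ℂ) 1 where
  toFun x := ⟨x.1, by
    change Memℓp x.1 1
    rw [memℓp_gen_iff (by simp)]
    have := x.2 0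
    simpa [h0] using this⟩
  map_add' _ _ := rfl
  map_smul' _ _ := rfl

theorem incl_norm (h0 : ∀ i, p 0 i = 1) (x : KSpace p) : ‖inclL h0 x‖ = sn p 0 x := by
  rw [lp.norm_eq_tsum_rpow (by simp)]
  change _ = ∑' i, ‖x.1 i‖ * (p 0 i : ℝ)
  simp only [ENNReal.toReal_one, Real.rpow_one, one_div, inv_one]
  refine tsum_congr fun i => ?_
  simp [h0]
  rfl

/-- the inclusion of the Köthe space into `ℓ¹` -/
noncomputable def incl (h0 : ∀ i, p 0 i = 1) : KSpace p →L[ℂ] lp (fun _ : I => ℂ) 1 :=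
  ⟨inclL h0, WithSeminorms.continuous_normedSpace_rng _ (withS p) (inclL h0) ⟨{0}, 1, fun x => by
    rw [Finset.sup_singleton, one_smul]
    exact (incl_norm h0 x).le⟩⟩

theorem sn_single [DecidableEq I] (k : ℕ) (i : I) : sn p k (ind p {i}) = p k i := by
  rw [sn_ind_eq, Finset.sum_singleton]

theorem not_nuclear [DecidableEq I] (h0 : ∀ i, p 0 i = 1) (hpos : ∀ k i, (0 : ℝ) < p k i)
    (hmono : ∀ k l, k ≤ l → ∀ i, p k i ≤ p l i)
    (hns : ∀ m, ¬ Summable fun i => ((p m i : ℝ))⁻¹) : ¬ NuclearSpace (KSpace p) := by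
  intro h
  obtain ⟨l, φ, y, q, hq, hl, hφ, hy, hT⟩ := h (lp (fun _ : I => ℂ) 1) (incl h0)
  obtain ⟨s, C, hC, hqC⟩ := Seminorm.bound_of_continuous (withS p) q hq
  obtain ⟨m, hm⟩ : ∃ m, ∀ k ∈ s, k ≤ m := ⟨s.sup id, fun k hk => Finset.le_sup (f := id) hk⟩
  have hqm : ∀ i : I, q (ind p {i}) ≤ C * p m i := by
    intro i
    refine (hqC _).trans ?_
    have h1 : s.sup (sn p) ≤ sn p m := Finset.sup_le fun k hk => sn_le_of_le (hmono k m (hm k hk))
    have h2 := h1 (ind p {i})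
    rw [sn_single] at h2
    change (C : ℝ) * (s.sup (sn p)) (ind p {i}) ≤ _
    exact mul_le_mul_of_nonneg_left h2 C.2
  -- the coordinates
  have hcoord : ∀ i : I, (1 : ℝ) ≤ ∑' n, ‖l n‖ * (C * p m i) * ‖y n i‖ := by
    intro i
    have h1 := (hT (ind p {i})).mapL (lp.evalCLM ℂ (fun _ : I => ℂ) (p := 1) i)
    have h2 : lp.evalCLM ℂ (fun _ : I => ℂ) (p := 1) i (incl h0 (ind p {i})) = 1 := by
      change (ind p {i}).1 i = 1
      simp [ind]
    rw [h2] at h1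
    have hb : ∀ n, ‖lp.evalCLM ℂ (fun _ : I => ℂ) (p := 1) i
        ((l n * φ n (ind p {i})) • y n)‖ ≤ ‖l n‖ * (C * p m i) * ‖y n i‖ := by
      intro n
      rw [map_smul, norm_smul, norm_mul]
      have : ‖φ n (ind p {i})‖ ≤ C * p m i := (hφ n _).trans (hqm i)
      have h3 : ‖lp.evalCLM ℂ (fun _ : I => ℂ) (p := 1) i (y n)‖ = ‖y n i‖ := rfl
      rw [h3]
      gcongr
    have hs : Summable fun n => ‖l n‖ * (C * p m i) * ‖y n i‖ := by
      refine Summable.of_nonneg_of_le (fun n => by positivity) (fun n => ?_)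
        (hl.mul_right ((C : ℝ) * p m i))
      have : ‖y n i‖ ≤ 1 := (lp.norm_apply_le_norm one_ne_zero (y n) i).trans (hy n)
      have h0 : 0 ≤ ‖l n‖ * ((C : ℝ) * p m i) := by positivity
      nlinarith
    have h4 := tsum_of_norm_bounded hs.hasSum hb
    rw [h1.tsum_eq] at h4
    simpa using h4
  -- sums over finite sets of indices
  have hfin : ∀ S : Finset I, ∑ i ∈ S, ((p m i : ℝ))⁻¹ ≤ C * ∑' n, ‖l n‖ := by
    intro S
    have h1 : ∀ i ∈ S, ((p m i : ℝ))⁻¹ ≤ ∑' n, C * ‖l n‖ * ‖y n i‖ := by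
      intro i _
      have h2 := hcoord i
      have hp := hpos m i
      have h3 : ∑' n, ‖l n‖ * (C * p m i) * ‖y n i‖ =
          (p m i : ℝ) * ∑' n, C * ‖l n‖ * ‖y n i‖ := by
        rw [← tsum_mul_left]
        exact tsum_congr fun n => by ring
      rw [h3] at h2
      rw [inv_le_iff_one_le_mul₀ hp, mul_comm]
      exact h2
    refine (Finset.sum_le_sum h1).trans ?_
    have hs : ∀ i ∈ S, Summable fun n => C * ‖l n‖ * ‖y n i‖ := by
      intro i _
      refine Summable.of_nonneg_of_le (fun n => by positivity) (fun n => ?_)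
        (hl.mul_left (C : ℝ))
      have : ‖y n i‖ ≤ 1 := (lp.norm_apply_le_norm one_ne_zero (y n) i).trans (hy n)
      have h0 : 0 ≤ (C : ℝ) * ‖l n‖ := by positivity
      nlinarith
    rw [← Summable.tsum_finsetSum hs, ← tsum_mul_left]
    refine Summable.tsum_le_tsum (fun n => ?_) (summable_sum hs) (hl.mul_left _)
    rw [← Finset.mul_sum]
    have h5 : ∑ i ∈ S, ‖y n i‖ ≤ 1 := by
      have := lp.sum_rpow_le_norm_rpow (p := 1) (by simp) (y n) S
      simp only [ENNReal.toReal_one, Real.rpow_one] at this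
      exact this.trans (hy n)
    have h0 : 0 ≤ (C : ℝ) * ‖l n‖ := by positivity
    nlinarith
  exact hns m (summable_of_sum_le (fun i => inv_nonneg.2 (p m i).2) hfin)

end

/-- **Powers of one weight.** -/
theorem power.{u} {I : Type} [DecidableEq I] (V : I → ℝ≥0) (h1 : ∀ i, 1 ≤ V i)
    (hfin : ∀ R : ℝ, {i | (V i : ℝ) ≤ R}.Finite) (s : ℕ)
    (hs : ∃ᶠ R : ℝ in atTop, ((hfin R).toFinset.card : ℝ) ≤ R ^ s)
    (h : Closed fun (k : ℕ) i => V i ^ k) : ApproximatelyContractible.{u} h := by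
  have h1' : ∀ i, (1 : ℝ) ≤ V i := fun i => by exact_mod_cast h1 i
  have hP : KoetheSet fun (k : ℕ) i => V i ^ k :=
    ⟨fun i => ⟨0, by simp⟩, fun k l => ⟨max k l, fun i => max_le
      (pow_le_pow_right₀ (h1 i) (le_max_left _ _)) (pow_le_pow_right₀ (h1 i) (le_max_right _ _))⟩⟩
  refine crit hP h fun k F ε hε => ?_
  obtain ⟨M, hM0, hM⟩ : ∃ M : ℝ, 0 < M ∧ ∀ a ∈ F,
      sn (fun (k : ℕ) i => V i ^ k) (2 * k + s + 1) a ≤ M := by
    refine ⟨1 + ∑ a ∈ F, sn (fun (k : ℕ) i => V i ^ k) (2 * k + s + 1) a, ?_, fun a ha => ?_⟩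
    · have : 0 ≤ ∑ a ∈ F, sn (fun (k : ℕ) i => V i ^ k) (2 * k + s + 1) a :=
        Finset.sum_nonneg fun a _ => apply_nonneg _ _
      linarith
    · have := Finset.single_le_sum (f := fun a => sn (fun (k : ℕ) i => V i ^ k) (2 * k + s + 1) a)
        (fun a _ => apply_nonneg _ _) ha
      linarith
  obtain ⟨R, hR, hR1⟩ := (hs.and_eventually
    (eventually_ge_atTop (max 1 (2 * M / ε + 1)))).exists
  have hR2 : 1 ≤ R := (le_max_left _ _).trans hR1
  have hR3 : 2 * M / ε < R := by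
    have := (le_max_right (1 : ℝ) (2 * M / ε + 1)).trans hR1
    linarith
  have hR0 : 0 < R := by linarith
  refine ⟨(hfin R).toFinset, fun a ha => ?_⟩
  have h2 : ∑ i ∈ (hfin R).toFinset, (((V i ^ k : ℝ≥0)) : ℝ) ≤ R ^ s * R ^ k := by
    calc ∑ i ∈ (hfin R).toFinset, (((V i ^ k : ℝ≥0)) : ℝ) ≤ ∑ i ∈ (hfin R).toFinset, R ^ k := by
          refine Finset.sum_le_sum fun i hi => ?_
          rw [Set.Finite.mem_toFinset, Set.mem_setOf_eq] at hi
          push_cast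
          exact pow_le_pow_left₀ (by positivity) hi k
      _ = ((hfin R).toFinset.card : ℝ) * R ^ k := by
          rw [Finset.sum_const, nsmul_eq_mul]
      _ ≤ R ^ s * R ^ k := mul_le_mul_of_nonneg_right hR (by positivity)
  have h3 : R ^ (k + s + 1) * (∑' i, if i ∈ (hfin R).toFinset then 0 else
      ‖a.1 i‖ * (((V i ^ k : ℝ≥0)) : ℝ)) ≤ M := by
    refine le_trans ?_ (hM a ha)
    change _ ≤ ∑' i, ‖a.1 i‖ * (((V i ^ (2 * k + s + 1) : ℝ≥0)) : ℝ)
    have e := a.2 (2 * k + s + 1)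
    rw [← tsum_mul_left]
    have hle : ∀ i, R ^ (k + s + 1) * (if i ∈ (hfin R).toFinset then 0 else
        ‖a.1 i‖ * (((V i ^ k : ℝ≥0)) : ℝ)) ≤ ‖a.1 i‖ * (((V i ^ (2 * k + s + 1) : ℝ≥0)) : ℝ) := by
      intro i
      split_ifs with hi
      · rw [mul_zero]; positivity
      · rw [Set.Finite.mem_toFinset, Set.mem_setOf_eq, not_le] at hi
        push_cast
        have e1 : R ^ (k + s + 1) ≤ (V i : ℝ) ^ (k + s + 1) :=
          pow_le_pow_left₀ hR0.le hi.le _
        have e2 : (V i : ℝ) ^ (2 * k + s + 1) = (V i : ℝ) ^ (k + s + 1) * (V i : ℝ) ^ k := by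
          rw [← pow_add]; congr 1; ring
        have e3 : 0 ≤ ‖a.1 i‖ * (V i : ℝ) ^ k := by positivity
        rw [e2]
        nlinarith
    refine Summable.tsum_le_tsum hle (Summable.of_nonneg_of_le (fun i => ?_) hle e) e
    split_ifs <;> positivity
  set t := ∑' i, if i ∈ (hfin R).toFinset then 0 else ‖a.1 i‖ * (((V i ^ k : ℝ≥0)) : ℝ) with ht
  have ht0 : 0 ≤ t := tsum_nonneg fun i => by split_ifs <;> positivity
  have h4 : 1 ≤ R ^ s * R ^ k := by
    rw [← pow_add]; exact one_le_pow₀ hR2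
  have h5 : (1 + ∑ i ∈ (hfin R).toFinset, (((V i ^ k : ℝ≥0)) : ℝ)) * t ≤ 2 * (R ^ s * R ^ k) * t :=
    mul_le_mul_of_nonneg_right (by linarith) ht0
  have h6 : R * (2 * (R ^ s * R ^ k) * t) ≤ 2 * M := by
    have : R * (2 * (R ^ s * R ^ k) * t) = 2 * (R ^ (k + s + 1) * t) := by
      rw [pow_add, pow_add, pow_one]; ring
    rw [this]; linarith
  have h7 : 2 * M < R * ε := by rwa [div_lt_iff₀ hε] at hR3
  exact h5.trans_lt (lt_of_mul_lt_mul_left (h6.trans_lt h7) hR0.le)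

/-- arbitrarily large blocks -/
theorem example_phi.{u} (φ : ℝ → ℝ) (hφ : ∀ t, 0 < t → 0 < φ t) :
    ∃ (I : Type) (p : ℕ → I → ℝ≥0) (h : Closed p), Countable I ∧ KoetheSet p ∧
      (∀ i, p 0 i = 1) ∧ (∀ k l i, p k i * p l i = p (k + l) i) ∧
      (∀ k, Tendsto (fun i => (p k i : ℝ) / p (k + 1) i) cofinite (𝓝 0)) ∧
      (∀ k m, k ≤ m → ¬ Summable fun i => φ ((p k i : ℝ) / p m i)) ∧
      ApproximatelyContractible.{u} h ∧ ¬ NuclearSpace (KSpace p) := by
  set ψ : ℝ → ℝ := fun t => min (φ t) t with hψ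
  have hψ0 : ∀ t, 0 < t → 0 < ψ t := fun t ht => lt_min (hφ t ht) ht
  let g : ℕ → ℕ → ℕ := fun j w => ∑ k ∈ Finset.range (j + 1), ⌈1 / ψ (((w : ℝ) ^ k)⁻¹)⌉₊
  have hg : ∀ j w k : ℕ, k ≤ j → 1 / ψ (((w : ℝ) ^ k)⁻¹) ≤ g j w := by
    intro j w k hk
    refine (Nat.le_ceil _).trans ?_
    have := Finset.single_le_sum (f := fun k => ⌈1 / ψ (((w : ℝ) ^ k)⁻¹)⌉₊)
      (fun a _ => Nat.zero_le _) (Finset.mem_range.2 (Nat.lt_succ_of_le hk))
    exact Nat.cast_le.2 this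
  have key := not_summable g ψ hψ0 hg
  have hW : ∀ (k : ℕ) (i : Ix g), (0 : ℝ) < ((W g i.1 : ℝ) ^ k)⁻¹ := fun k i => by
    have := one_le_W g i.1
    positivity
  refine ⟨Ix g, pw g, closed g, inferInstance, koethe g, fun i => by simp [pw],
    fun k l i => by simp [pw, pow_add], schwartz g, fun k m hkm h => ?_, approx g,
    not_nuclear (fun i => by simp [pw]) (pw_pos g) (fun k l h => pw_mono g h) fun m h => ?_⟩
  · refine key (m - k) (Summable.of_nonneg_of_le (fun i => (hψ0 _ (hW _ i)).le)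
      (fun i => ?_) h)
    have h1 : (pw g k i : ℝ) / pw g m i = ((W g i.1 : ℝ) ^ (m - k))⁻¹ := by
      have := one_le_W g i.1
      obtain ⟨d, rfl⟩ := Nat.exists_eq_add_of_le hkm
      rw [pw_real, pw_real, Nat.add_sub_cancel_left, pow_add]
      field_simp
    rw [h1]
    exact min_le_left _ _
  · refine key m (Summable.of_nonneg_of_le (fun i => (hψ0 _ (hW _ i)).le) (fun i => ?_) h)
    rw [pw_real]
    exact min_le_right _ _

end Pool.Agent.KS6_17.KOT
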